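import Pool.Agent.PXE.Stmts

set_option autoImplicit false

/-!
# Squad PXE, row COP: coprimality on `J`, the resultant is not zero
-/

namespace Pool.Agent.PXE.H58

open MvPolynomial Polynomial
open MvPolynomial (pderiv)
open Pool.Agent.PX (IsLo)
open Pool.Agent.PW (Ph Free)
open Pool.Agent.PW.H82 (OG ph_ne)

theorem free_mono {E D : Type} [Field E] [CommRing D] [Algebra E D] {m m' : ℕ} (h : m ≤ m')
    {ζ : ℕ → D} (hζ : Free E m' ζ) : Free E m ζ := fun S hS => hζ S (hS.trans h)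

/-- Variables of a divisor. -/
theorem vars_of_dvd {K : Type} [CommRing K] [IsDomain K] {d a : MvPolynomial ℕ K} (h : d ∣ a)
    (ha : a ≠ 0) {z : ℕ} (hz : z ∉ a.vars) : z ∉ d.vars := by
  obtain ⟨e, rfl⟩ := h
  have hd : d ≠ 0 := left_ne_zero_of_mul ha
  have he : e ≠ 0 := right_ne_zero_of_mul ha
  rw [mem_vars_iff_degreeOf_ne_zero, not_not] at hz ⊢
  rw [degreeOf_mul_eq hd he] at hz
  omega

/-- Monomials of a form have few variables. -/
theorem og_isLo {E : Type} [Field E] [CharZero E] {c : ℕ} {f : MvPolynomial ℕ E} (hf : IsLo c f) :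
    OG (c + 1) ∅ f := by
  classical
  have h : ∃ n, f.vars ⊆ Finset.range n := by
    refine ⟨f.vars.sup id + 1, fun i hi => ?_⟩
    rw [Finset.mem_range]
    have := Finset.le_sup (f := id) hi
    simp only [id] at this
    omega
  obtain ⟨n, hn⟩ := h
  exact Pool.Agent.PX.H82.og_isForm (n := n) ⟨hn, hf⟩

/-- The specialised polynomial only contains variables of `J`. -/
theorem ph_vars {E D : Type} [Field E] [CommRing D] [Nontrivial D] [Algebra E D] (ζ : ℕ → D) (J : Finset ℕ)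
    (f : MvPolynomial ℕ E) {z : ℕ} (hz : z ∉ J) : z ∉ (Ph ζ J f).vars := by
  classical
  have h : Ph ζ J f ∈ (MvPolynomial.supported D (J : Set ℕ)).restrictScalars E := by
    have h1 : Ph ζ J f ∈ (Ph ζ J : MvPolynomial ℕ E →ₐ[E] MvPolynomial ℕ D).range := ⟨f, rfl⟩
    refine (?_ : (Ph ζ J : MvPolynomial ℕ E →ₐ[E] MvPolynomial ℕ D).range ≤
      (MvPolynomial.supported D (J : Set ℕ)).restrictScalars E) h1
    unfold Ph
    rw [← Algebra.adjoin_range_eq_range_aeval]
    refine Algebra.adjoin_le ?_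
    rintro _ ⟨i, rfl⟩
    show (if i ∈ J then (MvPolynomial.X i : MvPolynomial ℕ D) else MvPolynomial.C (ζ i)) ∈
      MvPolynomial.supported D (J : Set ℕ)
    split_ifs with hi
    · exact MvPolynomial.X_mem_supported.2 hi
    · exact Subalgebra.algebraMap_mem _ (ζ i)
  have h2 : Ph ζ J f ∈ MvPolynomial.supported D (J : Set ℕ) := h
  rw [MvPolynomial.mem_supported] at h2
  exact fun h3 => hz (h2 h3)

theorem cop (cpn : CpnStmt) (ptx : PtxStmt) (psi' : PsiStmt) : CopStmt := by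
  classical
  intro c q
  obtain ⟨M, m, hM⟩ := cpn c q
  refine ⟨M, max m (c + 1), ?_⟩
  intro E D K _ _ _ _ _ _ _ _ ζ hζ g h J1 hg hh hg0 hh0 hrel hJ1
  obtain ⟨J, hJ1J, hJM, hJ⟩ := hM E D ζ (free_mono (le_max_left _ _) hζ) g h J1 hg hh hg0 hh0 hrel hJ1
  refine ⟨J, hJ1J, hJM, ?_⟩
  have hinj : Function.Injective (algebraMap D K) := IsFractionRing.injective D K
  have hinj' : Function.Injective (MvPolynomial.map (σ := ℕ) (algebraMap D K)) :=
    MvPolynomial.map_injective _ hinj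
  have hgP : Ph ζ J g ≠ 0 := ph_ne (c + 1) ζ (free_mono (le_max_right _ _) hζ) J g hg0 (og_isLo hg)
  obtain ⟨a, ha⟩ : ∃ a, a = MvPolynomial.map (algebraMap D K) (Ph ζ J g) := ⟨_, rfl⟩
  obtain ⟨b, hb⟩ : ∃ b, b = MvPolynomial.map (algebraMap D K) (Ph ζ J h) := ⟨_, rfl⟩
  have ha0 : a ≠ 0 := by
    rw [ha]
    exact fun h0 => hgP (hinj' (by rw [h0, map_zero]))
  have hvars : ∀ z, z ∉ J → z ∉ a.vars := by
    intro z hz h1
    rw [ha] at h1
    exact ph_vars ζ J g hz (MvPolynomial.vars_map _ _ h1)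
  have hcop : IsRelPrime a b := by
    intro d hda hdb
    have hd0 : d ≠ 0 := fun h0 => ha0 (by rw [h0] at hda; exact zero_dvd_iff.1 hda)
    have hdv : ∀ z, z ∉ d.vars := by
      intro z
      by_cases hz : z ∈ J
      · rcases ptx E D (Ph ζ J g) (Ph ζ J h) z with ⟨r, u, v, hr, hzr, hruv⟩ |
          ⟨Om, hOm, hal, j, e, hj, hjC, hjX, heg, heh⟩
        · have hrK : MvPolynomial.map (algebraMap D K) r ≠ 0 :=
            fun h0 => hr (hinj' (by rw [h0, map_zero]))
          refine vars_of_dvd ?_ hrK (fun h1 => hzr (MvPolynomial.vars_map _ _ h1))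
          rw [hruv, map_add, map_mul, map_mul, ← ha, ← hb]
          exact dvd_add (Dvd.dvd.mul_left hda _) (Dvd.dvd.mul_left hdb _)
        · exact absurd (hJ z Om j e hz hj hjC hjX heg heh) (fun h => h)
      · exact vars_of_dvd hda ha0 (hvars z hz)
    have hdv' : d.vars = ∅ := Finset.eq_empty_of_forall_notMem hdv
    rw [MvPolynomial.vars_eq_empty_iff_eq_C] at hdv'
    rw [hdv'] at hd0 ⊢
    have h2 : coeff 0 d ≠ 0 := fun h0 => hd0 (by rw [h0, map_zero])
    exact (isUnit_iff_ne_zero.2 h2).map MvPolynomial.C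
  intro β
  rw [← ha, ← hb]
  exact (psi' K β a b ha0 hcop).1

end Pool.Agent.PXE.H58
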