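import Pool.Agent.PXE.Stmts

set_option autoImplicit false

/-!
# Squad PXE, row RPQ: the Gauss lemma for relatively prime polynomials
-/

namespace Pool.Agent.PXE.H58

open MvPolynomial

/-- Relatively prime elements of a factorial domain stay relatively prime in a localisation. -/
theorem loc_rel {R S : Type} [CommRing R] [IsDomain R] [UniqueFactorizationMonoid R] [CommRing S]
    [Algebra R S] (M : Submonoid R) [IsLocalization M S] (hM : M ≤ nonZeroDivisors R) (f g : R)
    (hf : f ≠ 0) (h : IsRelPrime f g) : IsRelPrime (algebraMap R S f) (algebraMap R S g) := by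
  have hinj : Function.Injective (algebraMap R S) := IsLocalization.injective S hM
  have key : ∀ (x f : R), algebraMap R S x ∣ algebraMap R S f → ∃ t ∈ M, x ∣ f * t := by
    intro x f ⟨e, he⟩
    obtain ⟨⟨e0, t⟩, ht⟩ := IsLocalization.surj M e
    refine ⟨t, t.2, e0, hinj ?_⟩
    simp only at ht
    rw [map_mul, map_mul, ← ht, he, mul_assoc]
  intro d hdf hdg
  obtain ⟨⟨d0, s⟩, hd⟩ := IsLocalization.surj M d
  simp only at hd
  have hs : IsUnit (algebraMap R S s) := IsLocalization.map_units S s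
  have hfS : algebraMap R S f ≠ 0 := fun h0 => hf (hinj (by rw [h0, map_zero]))
  have hd00 : d0 ≠ 0 := by
    rintro rfl
    rw [map_zero] at hd
    have h1 : d = 0 := (hs.mul_left_eq_zero).1 hd
    rw [h1] at hdf
    exact hfS (zero_dvd_iff.1 hdf)
  have h1 : algebraMap R S d0 ∣ algebraMap R S f := by
    rw [← hd]
    exact (hs.mul_right_dvd).2 hdf
  have h2 : algebraMap R S d0 ∣ algebraMap R S g := by
    rw [← hd]
    exact (hs.mul_right_dvd).2 hdg
  obtain ⟨t, htM, ht⟩ := key d0 f h1
  obtain ⟨t', htM', ht'⟩ := key d0 g h2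
  have hu : ∀ x : R, x ∣ d0 → IsUnit (algebraMap R S x) := by
    intro x
    induction x using UniqueFactorizationMonoid.induction_on_prime with
    | h₁ => exact fun h0 => absurd (zero_dvd_iff.1 h0) hd00
    | h₂ x hx => exact fun _ => hx.map _
    | h₃ a p ha hp ih =>
      intro hpa
      rw [map_mul]
      refine IsUnit.mul ?_ (ih ((Dvd.intro_left p rfl).trans hpa))
      have hpd : p ∣ d0 := (Dvd.intro a rfl).trans hpa
      have hM' : ∀ t ∈ M, p ∣ t → IsUnit (algebraMap R S p) := by
        intro t ht hpt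
        obtain ⟨y, hy⟩ := hpt
        have h3 : IsUnit (algebraMap R S t) := IsLocalization.map_units S (⟨t, ht⟩ : M)
        rw [hy, map_mul] at h3
        exact isUnit_of_mul_isUnit_left h3
      rcases hp.dvd_or_dvd (hpd.trans ht) with h4 | h4
      · rcases hp.dvd_or_dvd (hpd.trans ht') with h5 | h5
        · exact absurd (h h4 h5) hp.not_isUnit
        · exact hM' t' htM' h5
      · exact hM' t htM h4
  have h6 := hu d0 dvd_rfl
  rw [← hd] at h6
  exact isUnit_of_mul_isUnit_left h6

attribute [local instance] MvPolynomial.algebraMvPolynomial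

theorem rel_map (n : ℕ) (f g : MvPolynomial (Fin n) ℤ) (hf : f ≠ 0) (h : IsRelPrime f g) :
    IsRelPrime (MvPolynomial.map (Int.castRingHom ℚ) f) (MvPolynomial.map (Int.castRingHom ℚ) g) := by
  have h1 := loc_rel (S := MvPolynomial (Fin n) ℚ)
    ((nonZeroDivisors ℤ).map (C : ℤ →+* MvPolynomial (Fin n) ℤ)) ?_ f g hf h
  · exact h1
  · rintro _ ⟨x, hx, rfl⟩
    rw [mem_nonZeroDivisors_iff_ne_zero]
    have h2 : x ≠ 0 := nonZeroDivisors.ne_zero hx
    intro h3
    exact h2 (C_injective (Fin n) ℤ (by rw [h3, map_zero]))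

theorem rpq : RpqStmt := by
  classical
  intro n f g hf h
  obtain ⟨F, hF⟩ : ∃ F, F = MvPolynomial.map (Int.castRingHom ℚ) f := ⟨_, rfl⟩
  obtain ⟨G, hG⟩ : ∃ G, G = MvPolynomial.map (Int.castRingHom ℚ) g := ⟨_, rfl⟩
  rw [← hF, ← hG]
  have hrel : IsRelPrime F G := by
    rw [hF, hG]
    exact rel_map n f g hf h
  have hF0 : F ≠ 0 := by
    rw [hF]
    intro h0
    exact hf (map_injective _ (RingHom.injective_int _) (by rw [h0, map_zero]))
  have hri : Function.Injective (rename (Fin.val : Fin n → ℕ) : MvPolynomial (Fin n) ℚ → _) :=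
    rename_injective _ Fin.val_injective
  have hrF0 : rename Fin.val F ≠ 0 := fun h0 => hF0 (hri (by rw [h0, map_zero]))
  have hvr : ∀ P : MvPolynomial (Fin n) ℚ, ∀ i ∈ (rename Fin.val P).vars, i < n := by
    intro P i hi
    have := vars_rename (Fin.val : Fin n → ℕ) P hi
    rw [Finset.mem_image] at this
    obtain ⟨j, _, rfl⟩ := this
    exact j.2
  -- a divisor of `F` comes from `Fin n`
  have hex : ∀ d : MvPolynomial ℕ ℚ, d ∣ rename Fin.val F → ∃ d1 : MvPolynomial (Fin n) ℚ,
      d = rename Fin.val d1 := by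
    intro d ⟨e, he⟩
    have hd0 : d ≠ 0 := left_ne_zero_of_mul (he ▸ hrF0)
    have he0 : e ≠ 0 := right_ne_zero_of_mul (he ▸ hrF0)
    have hv : (d.vars : Set ℕ) ⊆ Set.range (Fin.val : Fin n → ℕ) := by
      intro i hi
      have h1 : i ∈ (rename Fin.val F).vars := by
        rw [he]
        have h2 := Finset.mem_coe.1 hi
        rw [mem_vars_iff_degreeOf_ne_zero] at h2 ⊢
        rw [degreeOf_mul_eq hd0 he0]
        omega
      exact ⟨⟨i, hvr F i h1⟩, rfl⟩
    obtain ⟨q, hq⟩ := exists_rename_eq_of_vars_subset_range d Fin.val Fin.val_injective hv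
    exact ⟨q, hq.symm⟩
  -- the variables outside can be set to zero
  let σ : MvPolynomial ℕ ℚ →ₐ[ℚ] MvPolynomial (Fin n) ℚ :=
    aeval fun i => if hi : i < n then X ⟨i, hi⟩ else 0
  have hσ : ∀ P : MvPolynomial (Fin n) ℚ, σ (rename Fin.val P) = P := by
    intro P
    have h1 : σ.comp (rename (Fin.val : Fin n → ℕ)) = AlgHom.id ℚ _ := by
      apply MvPolynomial.algHom_ext
      intro i
      rw [AlgHom.comp_apply, rename_X]
      show aeval _ (X (i : ℕ)) = _
      rw [aeval_X, dif_pos i.2]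
      rfl
    exact congrArg (fun φ : MvPolynomial (Fin n) ℚ →ₐ[ℚ] MvPolynomial (Fin n) ℚ => φ P) h1
  intro d hdF hdG
  obtain ⟨d1, rfl⟩ := hex d hdF
  have h1 : d1 ∣ F := by
    have := map_dvd σ hdF
    rwa [hσ, hσ] at this
  have h2 : d1 ∣ G := by
    have := map_dvd σ hdG
    rwa [hσ, hσ] at this
  exact (hrel h1 h2).map (rename (Fin.val : Fin n → ℕ) : MvPolynomial (Fin n) ℚ →ₐ[ℚ] _)

end Pool.Agent.PXE.H58
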